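import Pool.Agent.H.MP_2786f0_ag.h70.K.Main

/-!
# Rational curves on Fano varieties whose Cox ring is a complete intersection

A torus with character lattice `L = Fin r → ℤ` acts on the affine space with the weights `w i`, which lie
in an open half space; the `F j` are homogeneous of degrees `δ j`, and `κ = ∑ w i - ∑ δ j`. Let `X` be
the quotient of the semistable common zeros of the `F j` for the character `κ`. Suppose that

* `R = k[x] / (F)` is a factorial domain, and no `F j` contains a linear monomial;
* the common zeros of the `F j` which are not semistable have codimension at least two: a polynomial which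
  vanishes at all semistable zeros of `g` on `F = 0` vanishes at all zeros of `g` on `F = 0`;
* the torus acts freely on the semistable points, and these are smooth points of the complete
  intersection `F = 0`.

Then `X` is a smooth Fano variety with Cox ring `R`, Picard group `L` and anticanonical class `κ`, and all
smooth Fano varieties whose Cox ring is a complete intersection arise in this way. The theorem: the
classes of the rational curves on `X` generate the dual lattice, and each class which is nonnegative on
the weights of the nonzero coordinates of some point of `X` is a sum of such classes.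
-/

namespace Pool.Agent.Results.MP_2786f0_ag.CoxFano

open MvPolynomial Pool.Agent.H.MP_2786f0_ag.h70

theorem result {k : Type*} [Field k] [IsAlgClosed k] (h2 : (2 : k) ≠ 0) {N c r : ℕ}
    (w : Fin N → Fin r → ℤ) (δ : Fin c → Fin r → ℤ) (F : Fin c → MvPolynomial (Fin N) k)
    (hF : ∀ j, IsWeightedHomogeneous w (F j) (δ j))
    (κ : Fin r → ℤ) (hκ : κ = ∑ i, w i - ∑ j, δ j)
    (hproj : ∃ l : Fin r → ℤ, ∀ i, 0 < l ⬝ᵥ w i)
    (hmin : ∀ (j : Fin c) (i : Fin N), coeff (Finsupp.single i 1) (F j) = 0)
    (hdom : IsDomain (MvPolynomial (Fin N) k ⧸ Ideal.span (Set.range F)))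
    (hufd : UniqueFactorizationMonoid (MvPolynomial (Fin N) k ⧸ Ideal.span (Set.range F)))
    (hcod : ∀ g h : MvPolynomial (Fin N) k,
      (∀ x : Fin N → k, IsPoint w κ F x → eval x g = 0 → eval x h = 0) →
      ∀ x : Fin N → k, (∀ j, eval x (F j) = 0) → eval x g = 0 → eval x h = 0)
    (hne : ∃ x : Fin N → k, IsPoint w κ F x)
    (hfree : ∀ x : Fin N → k, IsPoint w κ F x → AddSubgroup.closure (w '' {i | x i ≠ 0}) = ⊤)
    (hsm : ∀ x : Fin N → k, IsPoint w κ F x →
      LinearIndependent k fun (j : Fin c) (i : Fin N) => eval x (pderiv i (F j))) :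
    (∀ (β : Fin r → ℤ) (p : Fin N → k), IsPoint w κ F p → (∀ i, p i ≠ 0 → 0 ≤ β ⬝ᵥ w i) →
      β ∈ AddSubmonoid.closure {β | IsCurveClass w κ F β}) ∧
    AddSubgroup.closure {β | IsCurveClass w κ F β} = ⊤ :=
  curve_classes_generate' h2 hF hproj hκ hne hfree hsm hmin hdom hufd hcod

end Pool.Agent.Results.MP_2786f0_ag.CoxFano
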