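import Pool.Agent.H.MP_2786f0_ag.h70.Main

/-!
# Rational curves on Fano varieties with complete intersection Cox ring

A torus with character lattice `L = Fin r → ℤ` acts on the affine space with the weights `w i`, which lie
in an open half space; the `F j` are homogeneous of degrees `δ j`, and `κ = ∑ w i - ∑ δ j`. Let `X` be
the quotient of the semistable common zeros of the `F j` for the character `κ`. Suppose that the torus acts
freely on these points, that they are smooth points of the complete intersection `F = 0`, and that no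
coordinate vanishes near one of them; then `X` is a smooth projective variety with anticanonical class `κ`,
hence a Fano variety. (If `k[x] / (F)` is the Cox ring of a smooth Fano variety `X`, then all this
holds, with `L = Pic X`.)

Suppose that the classes `β` in the dual lattice which are nonnegative on all weights and have
anticanonical degree `⟨β, κ⟩ = 1` (there are none if `κ` is divisible by `2`) satisfy one of the
following conditions: the fibration of `X` given by the functions of `β`-degree zero is not smooth; or its fibres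
have dimension at least `2`, and one of them is the full weighted complete intersection. Then every class
which is nonnegative on the weights of the nonzero coordinates of some point of `X` is a sum of classes of
rational curves on `X`, and the classes of rational curves generate the dual lattice.
-/

namespace Pool.Agent.Results.MP_2786f0_ag.CoxRings

open MvPolynomial Pool.Agent.H.MP_2786f0_ag.h70

theorem result {k : Type*} [Field k] [IsAlgClosed k] {N c r : ℕ}
    (w : Fin N → Fin r → ℤ) (δ : Fin c → Fin r → ℤ) (F : Fin c → MvPolynomial (Fin N) k)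
    (hF : ∀ j, IsWeightedHomogeneous w (F j) (δ j))
    (κ : Fin r → ℤ) (hκ : κ = ∑ i, w i - ∑ j, δ j)
    (hproj : ∃ l : Fin r → ℤ, ∀ i, 0 < l ⬝ᵥ w i)
    (hne : ∃ x : Fin N → k, IsPoint w κ F x)
    (hfree : ∀ x : Fin N → k, IsPoint w κ F x → AddSubgroup.closure (w '' {i | x i ≠ 0}) = ⊤)
    (hsm : ∀ x : Fin N → k, IsPoint w κ F x →
      LinearIndependent k fun (j : Fin c) (i : Fin N) => eval x (pderiv i (F j)))
    (hvar : ∀ x : Fin N → k, IsPoint w κ F x → ∀ (i : Fin N) (g : MvPolynomial (Fin N) k),
      g * X i ∈ Ideal.span (Set.range F) → eval x g = 0)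
    (hmov : ∀ β : Fin r → ℤ, (∀ i, 0 ≤ β ⬝ᵥ w i) → β ⬝ᵥ κ = 1 →
      (∃ x : Fin N → k, IsPoint w κ F x ∧ ¬ LinearIndependent k
        fun (j : {j : Fin c // 0 < β ⬝ᵥ δ j}) (i : {i : Fin N // 0 < β ⬝ᵥ w i}) =>
          eval x (pderiv i.1 (F j.1))) ∨
      (Nat.card {j : Fin c // 0 < β ⬝ᵥ δ j} + 3 ≤ Nat.card {i : Fin N // 0 < β ⬝ᵥ w i} ∧
        ∃ p : Fin N → k, IsPoint w κ F p ∧ ∀ x : Fin N → k, (∀ j, eval x (F j) = 0) →
          (∀ i, β ⬝ᵥ w i = 0 → x i = p i) → (∃ i, 0 < β ⬝ᵥ w i ∧ x i ≠ 0) →
            Semistable w κ x)) :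
    (∀ (β : Fin r → ℤ) (p : Fin N → k), IsPoint w κ F p → (∀ i, p i ≠ 0 → 0 ≤ β ⬝ᵥ w i) →
      β ∈ AddSubmonoid.closure {β | IsCurveClass w κ F β}) ∧
    AddSubgroup.closure {β | IsCurveClass w κ F β} = ⊤ := by
  classical
  refine curve_classes_generate hF hproj hκ hne hfree hsm hvar fun β h1 h2 => ?_
  rcases hmov β h1 h2 with h | ⟨h3, h4⟩
  · exact Or.inl h
  · refine Or.inr ⟨?_, h4⟩
    simpa only [Nat.card_eq_fintype_card] using h3

end Pool.Agent.Results.MP_2786f0_ag.CoxRings
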