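import Pool.Agent.H.MP_2786f0_ag.Line

/-!
# Curves of degree one through every point of a weighted complete intersection of index at least two

Let `a` be positive weights and `F j` weighted homogeneous polynomials of degrees `d j` over an
algebraically closed field `k`, with `∑ a i - ∑ d j ≥ 2`, and let `X` be the subscheme `F = 0` of
the weighted projective space `P(a)`. Suppose that `X` does not meet the orbifold points of `P(a)`: for
every common zero `x ≠ 0` of the `F j` the weights `a i` with `x i ≠ 0` have no common divisor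
other than `1`. Then through every point of `X` there is a rational curve of degree one, that is, a
morphism `f` from the projective line to `X` such that the pullback of `O(1)` is `O(1)`.
-/

namespace Pool.Agent.Results.MP_2786f0_ag.DegreeOneCurves

open MvPolynomial

theorem result {k : Type*} [Field k] [IsAlgClosed k] {N c : ℕ} (a : Fin N → ℕ) (ha : ∀ i, 1 ≤ a i)
    (d : Fin c → ℕ) (F : Fin c → MvPolynomial (Fin N) k)
    (hF : ∀ j, IsWeightedHomogeneous a (F j) (d j)) (hd : ∑ j, d j + 2 ≤ ∑ i, a i)
    (hX : ∀ x : Fin N → k, x ≠ 0 → (∀ j, eval x (F j) = 0) →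
      ∀ r : ℕ, (∀ i, x i ≠ 0 → r ∣ a i) → r = 1)
    (p : Fin N → k) (hp : p ≠ 0) (hpF : ∀ j, eval p (F j) = 0) :
    ∃ f : Fin N → MvPolynomial (Fin 2) k, (∀ i, (f i).IsHomogeneous (a i)) ∧
      (∀ u : Fin 2 → k, u ≠ 0 → ∃ i, eval u (f i) ≠ 0) ∧
      (∀ j, aeval f (F j) = 0) ∧ ∀ i, eval ![1, 0] (f i) = p i :=
  Pool.Agent.H.MP_2786f0_ag.exists_line a ha d F hF hd hX p hp hpF

end Pool.Agent.Results.MP_2786f0_ag.DegreeOneCurves
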