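import Pool.Agent.H.MP_2786f0_ag.C.Final

/-!
# Curves of degree one on Fano weighted complete intersections

Let `a` be positive weights and `F j` weighted homogeneous polynomials of positive degrees `d j` over
an algebraically closed field `k`, with `∑ a i - ∑ d j ≥ 1`, and let `X` be the subscheme `F = 0` of
the weighted projective space `P(a)`, of expected dimension at least `2`. Suppose that `X` does not
meet the orbifold points of `P(a)`: for every common zero `x ≠ 0` of the `F j` the weights `a i` with
`x i ≠ 0` have no common divisor other than `1`. Then `X` contains a rational curve of degree one, that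
is, there is a morphism `f` from the projective line to `X` such that the pullback of `O(1)` is `O(1)`.
-/

namespace Pool.Agent.Results.MP_2786f0_ag.FanoCurves

open MvPolynomial

theorem result {k : Type*} [Field k] [IsAlgClosed k] {N c : ℕ} (a : Fin N → ℕ) (ha : ∀ i, 1 ≤ a i)
    (d : Fin c → ℕ) (hd : ∀ j, 1 ≤ d j) (F : Fin c → MvPolynomial (Fin N) k)
    (hF : ∀ j, IsWeightedHomogeneous a (F j) (d j)) (hN : c + 3 ≤ N)
    (hi : ∑ j, d j + 1 ≤ ∑ i, a i)
    (hX : ∀ x : Fin N → k, x ≠ 0 → (∀ j, eval x (F j) = 0) →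
      ∀ r : ℕ, (∀ i, x i ≠ 0 → r ∣ a i) → r = 1) :
    ∃ f : Fin N → MvPolynomial (Fin 2) k, (∀ i, (f i).IsHomogeneous (a i)) ∧
      (∀ u : Fin 2 → k, u ≠ 0 → ∃ i, eval u (f i) ≠ 0) ∧ ∀ j, aeval f (F j) = 0 :=
  Pool.Agent.H.MP_2786f0_ag.exists_degree_one a ha d hd F hF hN hi hX

end Pool.Agent.Results.MP_2786f0_ag.FanoCurves
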